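import Pool.Agent.P.MP_390d44_co.Dc.Main

/-! The numbers of planes of `n` points that determine all but `D` of the possible lines. -/

namespace Pool.Agent.Results.MP_390d44_co.DenseCorner

/-- Lines containing at least two points of `X`. -/
def detLines (X : Finset (Fin 3 → ℝ)) :
    Set (AffineSubspace ℝ (Fin 3 → ℝ)) :=
  {L | Module.finrank ℝ L.direction = 1 ∧ ∃ a ∈ X, ∃ b ∈ X, a ≠ b ∧ a ∈ L ∧ b ∈ L}

/-- Planes containing three non-collinear points of `X`. -/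
def detPlanes (X : Finset (Fin 3 → ℝ)) :
    Set (AffineSubspace ℝ (Fin 3 → ℝ)) :=
  {P | Module.finrank ℝ P.direction = 2 ∧ ∃ a ∈ X, ∃ b ∈ X, ∃ c ∈ X,
    ¬ Collinear ℝ {a, b, c} ∧ a ∈ P ∧ b ∈ P ∧ c ∈ P}

/-- Some nonempty set of `n` points of space determines `l` lines and `p` planes. -/
def Realisable (n l p : ℕ) : Prop :=
  ∃ X : Finset (Fin 3 → ℝ), X.Nonempty ∧ X.card = n ∧
    (detLines X).ncard = l ∧ (detPlanes X).ncard = p

/-- The main term of the largest number of planes. -/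
noncomputable def top (n D : ℕ) : ℝ :=
  (n.choose 3 : ℝ) - (n : ℝ) * D +
    min ((D : ℝ) / 2) (min (((D : ℝ) + n) / 4) (((D : ℝ) + 3 * n) / 7)) ^ 2 / 2

/-- The order of the error term. -/
noncomputable def err (D : ℕ) : ℝ := ((D : ℝ) + 1) ^ ((7 : ℝ) / 4)

open Pool.Agent.P.MP_390d44_co Pool.Agent.P.MP_390d44_co.Fb Pool.Agent.P.MP_390d44_co.Dc

theorem result (n l p D : ℕ) (hD : l + D = n.choose 2) (hn : D ≤ 2 * n) :
    (Realisable n l p → (p : ℝ) ≤ top n D + 20 * err D) ∧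
    (D ≠ 1 → D ≠ 3 → 10 ^ 9 * l ^ 4 ≤ p ^ 3 → (p : ℝ) ≤ top n D - 4000 * err D →
      Realisable n l p) := by
  have h0 : (1 : ℝ) ≤ (D : ℝ) + 1 := le_add_of_nonneg_left (Nat.cast_nonneg D)
  obtain ⟨x, hx⟩ : ∃ x, x = ((D : ℝ) + 1) ^ ((1 : ℝ) / 4) := ⟨_, rfl⟩
  have x1 : 1 ≤ x := hx ▸ Real.one_le_rpow h0 (by norm_num)
  have x4 : x ^ 4 = D + 1 := by
    rw [hx, ← Real.rpow_natCast, ← Real.rpow_mul (by linarith)]; norm_num
  have x7 : err D = x ^ 7 := by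
    rw [hx, ← Real.rpow_natCast, ← Real.rpow_mul (by linarith), err]; norm_num
  have out : Realisable n l p → R3 n l p := fun ⟨X, _, a1, a2, a3⟩ =>
    (p_AFF n l p).1 ⟨X, a1, a2, a3⟩
  rw [x7]
  refine ⟨fun h => outer hD hn x1 x4 (out h), fun h1 h3 hl hp => ?_⟩
  obtain ⟨X, a1, a2, a3⟩ := (p_AFF n l p).2 (inner hD h1 h3 hn x1 x4 hl hp)
  refine ⟨X, Finset.card_pos.1 (Nat.pos_of_ne_zero fun e => ?_), a1, a2, a3⟩
  obtain rfl : n = 0 := a1.symm.trans e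
  obtain rfl : D = 0 := by omega
  have h7 : 1 ≤ x ^ 7 := one_le_pow₀ x1
  have : (0 : ℝ) ≤ p := Nat.cast_nonneg p
  simp [top] at hp
  linarith

end Pool.Agent.Results.MP_390d44_co.DenseCorner
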