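import Pool.Agent.P.MP_390d44_co.Fb.Main2

/-! An inner and an outer bound for the set of realisable triples `(n, l, p)`. -/

namespace Pool.Agent.Results.MP_390d44_co.Fibre

/-- Lines containing at least two points of `X`. -/
def detLines (X : Finset (Fin 3 → ℝ)) :
    Set (AffineSubspace ℝ (Fin 3 → ℝ)) :=
  {L | Module.finrank ℝ L.direction = 1 ∧ ∃ a ∈ X, ∃ b ∈ X, a ≠ b ∧ a ∈ L ∧ b ∈ L}

/-- Planes containing three non-collinear points of `X`. -/
def detPlanes (X : Finset (Fin 3 → ℝ)) :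
    Set (AffineSubspace ℝ (Fin 3 → ℝ)) :=
  {P | Module.finrank ℝ P.direction = 2 ∧ ∃ a ∈ X, ∃ b ∈ X, ∃ c ∈ X,
    ¬ Collinear ℝ {a, b, c} ∧ a ∈ P ∧ b ∈ P ∧ c ∈ P}

/-- Some nonempty set of `n` points of space determines `l` lines and `p` planes. -/
def Realisable (n l p : ℕ) : Prop :=
  ∃ X : Finset (Fin 3 → ℝ), X.Nonempty ∧ X.card = n ∧
    (detLines X).ncard = l ∧ (detPlanes X).ncard = p

/-- The deficiency `D = C(n,2) - l`. -/
def defic (n l : ℕ) : ℝ := (n.choose 2 : ℝ) - l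

/-- `F = C(n,3) - n D + (2 D)^(3/2) / 3`. -/
noncomputable def top (n l : ℕ) : ℝ :=
  (n.choose 3 : ℝ) - n * defic n l + 2 * defic n l * Real.sqrt (2 * defic n l) / 3

/-- `U_k = k l - C(k+1,2) n + C(k+2,3)`. -/
def band (n l k : ℕ) : ℝ := k * l - ((k + 1).choose 2 : ℝ) * n + ((k + 2).choose 3 : ℝ)

/-- First part of the inner region. -/
def InnerA (n l p : ℕ) : Prop :=
  0 ≤ defic n l ∧ defic n l ≠ 1 ∧ defic n l ≠ 3 ∧
    10 ^ 9 * l ^ 4 ≤ p ^ 3 ∧ (p : ℝ) ≤ top n l - 2000 * (defic n l + 1)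

/-- Second part of the inner region. -/
def InnerB (n l p : ℕ) : Prop :=
  ∃ u : ℕ, 2 * n ≤ u ^ 3 ∧ 10 ^ 20 * n ^ 3 ≤ l ^ 2 ∧ 2 * (n : ℝ) ≤ defic n l ∧
    (l : ℝ) * (Real.sqrt (l / n) + 102 * u) ≤ p ∧ (p : ℝ) ≤ top n l - 2000 * (defic n l + 1)

/-- Third part of the inner region. -/
def InnerC (n l p : ℕ) : Prop :=
  ∃ u k K : ℕ, 2 * n ≤ u ^ 3 ∧ 1 ≤ K ∧ K + 101 * u ≤ k ∧ 256 * K + 6000 ≤ u ^ 2 ∧
    3 * ((K : ℝ) + 2) ^ 2 ≤ defic n l ∧ (n : ℝ) * (3 * k + 6 * Real.sqrt n) ≤ l ∧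
    band n l k - ((n : ℝ) - k) * (K ^ 2 - K) + 2 * K ^ 3 ≤ p ∧ (p : ℝ) ≤ band n l k - 5 * n

/-- The outer region. -/
def Outer (n l p : ℕ) : Prop :=
  0 ≤ defic n l ∧ defic n l ≠ 1 ∧ defic n l ≠ 3 ∧
    36 * p ^ 2 ≤ (2 * l) ^ 3 ∧ (2 * 10 ^ 10 * l ≤ n ^ 2 → (p : ℝ) ≤ top n l + 2 * defic n l) ∧
    ∀ j : ℕ, 10 ^ 51 * (j + 1) * n ≤ l →
      (p : ℝ) ≤ band n l j + n + 2 * j ^ 3 ∨ band n l (j + 1) - (j + 1) ^ 2 * n ≤ p

open Pool.Agent.P.MP_390d44_co Pool.Agent.P.MP_390d44_co.Fb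

lemma defic_eq {n l D : ℕ} (h : l + D = n.choose 2) : defic n l = D := by
  rw [defic, ← h]; push_cast; ring

lemma top_eq {n l D : ℕ} (h : l + D = n.choose 2) : top n l = FF n D := by
  rw [top, defic_eq h, FF]

lemma band_eq (n l k : ℕ) : band n l k = (UU n l k : ℤ) := by
  rw [band, UU]; push_cast; ring

lemma exists_defic {n l : ℕ} (h0 : 0 ≤ defic n l) : ∃ D, l + D = n.choose 2 := by
  have hl : l ≤ n.choose 2 := by
    have : (l : ℝ) ≤ (n.choose 2 : ℕ) := by unfold defic at h0; linarith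
    exact_mod_cast this
  obtain ⟨D, hD⟩ := Nat.exists_eq_add_of_le hl
  exact ⟨D, hD.symm⟩

lemma pos_of_top {n l p D : ℕ} (hD : l + D = n.choose 2)
    (h5 : (p : ℝ) ≤ FF n D - 2000 * (D + 1)) : 0 < n := by
  rcases Nat.eq_zero_or_pos n with rfl | hn
  · obtain rfl : D = 0 := by simp at hD; omega
    have : (0 : ℝ) ≤ p := by positivity
    simp [FF] at h5
    linarith
  · exact hn

lemma real_of {n l p : ℕ} (hn : 0 < n) (h : R3 n l p) : Realisable n l p := by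
  obtain ⟨X, x1, x2, x3⟩ := (p_AFF n l p).2 h
  exact ⟨X, Finset.card_pos.1 (by omega), x1, x2, x3⟩

theorem result (n l p : ℕ) :
    (InnerA n l p ∨ InnerB n l p ∨ InnerC n l p → Realisable n l p) ∧
      (Realisable n l p → Outer n l p) := by
  constructor
  · rintro (⟨h0, h1, h3, h4, h5⟩ | ⟨u, h1, h2, h3, h4, h5⟩ |
      ⟨u, k, K, h1, h2, h3, h4, h5, h6, h7, h8⟩)
    · obtain ⟨D, hD⟩ := exists_defic h0
      rw [top_eq hD] at h5
      rw [defic_eq hD] at h1 h3 h5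
      exact real_of (pos_of_top hD h5) (inn n l p D hD
        (fun e => h1 (by rw [e]; simp)) (fun e => h3 (by rw [e]; simp)) h4 (by linarith))
    · obtain ⟨D, hD⟩ := exists_defic (n := n) (l := l) (le_trans (by positivity) h3)
      rw [top_eq hD] at h5
      rw [defic_eq hD] at h3 h5
      have hn := pos_of_top hD h5
      exact real_of hn (cont n l p D u hD hn h2 (by exact_mod_cast h3) h1 h4 (by linarith))
    · obtain ⟨D, hD⟩ := exists_defic (n := n) (l := l) (le_trans (by positivity) h5)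
      rw [defic_eq hD] at h5
      rw [band_eq] at h7 h8
      have h5' : 3 * (K + 2) ^ 2 ≤ D := by exact_mod_cast h5
      have hn : 0 < n := by
        rcases Nat.eq_zero_or_pos n with rfl | hn
        · have : D = 0 := by simp at hD; omega
          have : 0 < 3 * (K + 2) ^ 2 := by positivity
          omega
        · exact hn
      exact real_of hn (inb n l p D k K u hD h2 h3 h1 h4 h5' h6 (by exact_mod_cast h7)
        (by exact_mod_cast h8))
  · rintro ⟨X, hX, x1, x2, x3⟩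
    have hn : 1 ≤ n := x1 ▸ Finset.card_pos.2 hX
    have hR := (p_AFF n l p).1 ⟨X, x1, x2, x3⟩
    have hG := gap n l p
    obtain ⟨Y, hY, rfl, rfl, rfl⟩ := id hR
    obtain ⟨D, hD, d1, d3⟩ := p_DD Y hY
    refine ⟨?_, ?_, ?_, kk Y hY, fun h => ?_, fun j h => ?_⟩
    · rw [defic_eq hD]; positivity
    · rw [defic_eq hD]; exact_mod_cast d1
    · rw [defic_eq hD]; exact_mod_cast d3
    · rw [top_eq hD, defic_eq hD]; exact sp _ _ _ D hR hD h
    · rw [band_eq, band_eq]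
      rcases hG j hR hn h with h | h
      · left; exact_mod_cast h
      · right; exact_mod_cast h

end Pool.Agent.Results.MP_390d44_co.Fibre
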