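import Pool.Agent.P.MP_390d44_co.Aff

/-! The possible numbers of planes determined by `n` points of space (large `n`, `p ≥ 3000 n`). -/

namespace Pool.Agent.Results.MP_390d44_co.PlaneCounts

/-- Lines containing at least two points of `X`. -/
def detLines (X : Finset (Fin 3 → ℝ)) :
    Set (AffineSubspace ℝ (Fin 3 → ℝ)) :=
  {L | Module.finrank ℝ L.direction = 1 ∧ ∃ a ∈ X, ∃ b ∈ X, a ≠ b ∧ a ∈ L ∧ b ∈ L}

/-- Planes containing three non-collinear points of `X`. -/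
def detPlanes (X : Finset (Fin 3 → ℝ)) :
    Set (AffineSubspace ℝ (Fin 3 → ℝ)) :=
  {P | Module.finrank ℝ P.direction = 2 ∧ ∃ a ∈ X, ∃ b ∈ X, ∃ c ∈ X,
    ¬ Collinear ℝ {a, b, c} ∧ a ∈ P ∧ b ∈ P ∧ c ∈ P}

/-- Some nonempty set of `n` points of space determines `l` lines and `p` planes. -/
def Realisable (n l p : ℕ) : Prop :=
  ∃ X : Finset (Fin 3 → ℝ), X.Nonempty ∧ X.card = n ∧
    (detLines X).ncard = l ∧ (detPlanes X).ncard = p

/-- The distances below the top of a band that do not occur. -/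
def gap (d : ℕ) : Finset ℤ :=
  if d < 6 then {1, 2, 4, 5, 7, 8, 10, 11, 13, 14, 16, 17, 20, 23, 26, 29, 32, 35}
  else if d < 12 then {2, 5, 8, 11, 14, 17} else ∅

/-- Bottom of the band with parameter `s`. -/
def lo (n s : ℕ) : ℤ := (s : ℤ) * ((n : ℤ) - s - 1) + 2 - (s.choose 2 : ℤ)

/-- Top of the band with parameter `s = C(j,2) - d`. -/
def hi (n s j d : ℕ) : ℤ := (s : ℤ) * ((n : ℤ) - j) + j + (j.choose 3 : ℤ) - d

open Pool.Agent.P.MP_390d44_co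

lemma gap_iff (d : ℕ) (x : ℕ) : (x : ℤ) ∉ gap d ↔ Good d x := by
  unfold gap Good
  split_ifs <;> simp only [Finset.mem_insert, Finset.mem_singleton, Finset.notMem_empty,
    not_false_eq_true, true_iff] <;> omega

lemma ex_iff (d : ℕ) (a b : ℤ) : (a ≤ b ∧ b - a ∉ gap d) ↔ ∃ x : ℕ, a + x = b ∧ Good d x := by
  constructor
  · rintro ⟨h1, h2⟩
    obtain ⟨x, hx⟩ := Int.eq_ofNat_of_zero_le (sub_nonneg.2 h1)
    exact ⟨x, by omega, (gap_iff d x).1 (hx ▸ h2)⟩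
  · rintro ⟨x, rfl, h⟩
    exact ⟨by omega, by rw [add_sub_cancel_left]; exact (gap_iff d x).2 h⟩

theorem result (n p : ℕ) (hn : 10 ^ 50 ≤ n) (hp : 3000 * n ≤ p) :
    (∃ l, Realisable n l p) ↔
      ((p : ℤ) ≤ (n.choose 3 : ℤ) ∧ (n.choose 3 : ℤ) - p ∉ gap 0) ∧
      (4 * n ^ 3 ≤ p ^ 2 ∨ ∃ s j d : ℕ, s + d = j.choose 2 ∧ d + 2 ≤ j ∧ s ^ 2 ≤ 5 * n ∧
        lo n s ≤ p ∧ (p : ℤ) ≤ hi n s j d ∧ hi n s j d - p ∉ gap d) := by
  have e : (∃ l, Realisable n l p) ↔ Real n p := by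
    rw [← real_iff]
    exact ⟨fun ⟨_, X, _, h1, _, h2⟩ => ⟨X, h1, h2⟩, fun ⟨X, h1, h2⟩ =>
      ⟨_, X, Finset.card_pos.1 (by omega), h1, rfl, h2⟩⟩
  rw [e, main hn hp, ex_iff]
  refine and_congr (exists_congr fun x => and_congr_left fun _ => by omega) (or_congr_right ?_)
  have key : ∀ s j d : ℕ, s + d = j.choose 2 → d + 2 ≤ j → s ^ 2 ≤ 5 * n → s + 1 ≤ n ∧ j ≤ n := by
    intro s j d h1 h2 h3
    have := small_s hn h3
    have := two_choose j
    refine ⟨by omega, by_contra fun h => ?_⟩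
    have : 10 * j ≤ j * j := Nat.mul_le_mul_right _ (by omega)
    omega
  simp only [ex_iff, Band, lo, hi]
  constructor
  · rintro ⟨j, d, s, h1, h2, h3, h4, x, h5, h6⟩
    obtain ⟨k1, k2⟩ := key s j d h2 h1 h3
    rw [Nat.sub_sub] at h4
    zify [k1, k2] at h4 h5
    exact ⟨s, j, d, h2, h1, h3, by linarith, x, by linarith, h6⟩
  · rintro ⟨s, j, d, h2, h1, h3, h4, x, h5, h6⟩
    obtain ⟨k1, k2⟩ := key s j d h2 h1 h3
    refine ⟨j, d, s, h1, h2, h3, ?_, x, ?_, h6⟩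
    · rw [Nat.sub_sub]; zify [k1]; linarith
    · zify [k2]; linarith

end Pool.Agent.Results.MP_390d44_co.PlaneCounts
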