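import Pool.Agent.P.MP_390d44_co.Fb.Main

/-! The exact maximum number of planes for `n` points with few lines. -/

namespace Pool.Agent.Results.MP_390d44_co.SparseMax

/-- Lines containing at least two points of `X`. -/
def detLines (X : Finset (Fin 3 → ℝ)) :
    Set (AffineSubspace ℝ (Fin 3 → ℝ)) :=
  {L | Module.finrank ℝ L.direction = 1 ∧ ∃ a ∈ X, ∃ b ∈ X, a ≠ b ∧ a ∈ L ∧ b ∈ L}

/-- Planes containing three non-collinear points of `X`. -/
def detPlanes (X : Finset (Fin 3 → ℝ)) :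
    Set (AffineSubspace ℝ (Fin 3 → ℝ)) :=
  {P | Module.finrank ℝ P.direction = 2 ∧ ∃ a ∈ X, ∃ b ∈ X, ∃ c ∈ X,
    ¬ Collinear ℝ {a, b, c} ∧ a ∈ P ∧ b ∈ P ∧ c ∈ P}

/-- Some nonempty set of `n` points of space determines `l` lines and `p` planes. -/
def Realisable (n l p : ℕ) : Prop :=
  ∃ X : Finset (Fin 3 → ℝ), X.Nonempty ∧ X.card = n ∧
    (detLines X).ncard = l ∧ (detPlanes X).ncard = p

open Pool.Agent.P.MP_390d44_co Pool.Agent.P.MP_390d44_co.Fb

theorem result (n k : ℕ) (hk : 1 ≤ k) (hn : 135 * 10 ^ 8 * k ≤ n) :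
    IsGreatest {p : ℕ | ∃ l ≤ 1 + k * (n - k) + k.choose 2, Realisable n l p}
      (k + (n - k) * k.choose 2 + k.choose 3) := by
  constructor
  · have h := mxl (n - k) k (by omega)
    rw [Nat.sub_add_cancel (by omega)] at h
    obtain ⟨X, x1, x2, x3⟩ := (p_AFF _ _ _).2 h
    exact ⟨_, le_rfl, X, Finset.card_pos.1 (by omega), x1, x2, x3⟩
  · rintro p ⟨l, hl, X, -, x1, x2, x3⟩
    exact mxu n k l p hk hn ((p_AFF n l p).1 ⟨X, x1, x2, x3⟩) hl

end Pool.Agent.Results.MP_390d44_co.SparseMax
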